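import Pool.Agent.Q20.BZ.Final
import Pool.Agent.Q20.BZ.Uniq

set_option autoImplicit false

/-!
# MP_32694d_nt: Bezout denominator and resultant of random integer polynomials

For all `m, n ≥ 2` the proportion `ρ_{m,n}(H)` of the coprime pairs of `P_m(H) × P_n(H)` with `B(f, g) = R(f, g)` tends to
`1 / ζ(2)² = 36 / π⁴ = 0.3695…`, which is smaller than `1/2`. So Q1 has a positive answer.

The proof. `B = R` if and only if the cokernel of the Sylvester map of `(f, g)` is generated by the class of `1`, and
this is the case if and only if for every prime `p` not both leading coefficients are divisible by `p` and the reductions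
of `f` and `g` modulo `p` have no common divisor of degree two. Of the `p^(m+n+2)` pairs modulo `p` exactly
`(p² - 1)² p^(m+n-2)` have this property. The primes `p ≤ M` are treated with the Chinese remainder theorem and the
primes between `M` and `2H + 1` by counting in residue classes. For a prime `p > 2H + 1` and fixed `g` and fixed
coefficients of `f` except the constant one, `p` divides the discriminant of the polynomial `y ↦ Res(f + y, g)`, which is
not zero except for few pairs; so only boundedly many constant coefficients are bad.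

The lemmas (`Pool.Agent.Q20.BZ`) were proved by many seats of the team, see `Pool.Agent.Q20.BZ.Stmts`.
-/

open Polynomial Filter Topology

namespace Pool.Agent.Results.MP_32694d_nt.BezoutEqualsResultant

/-- The polynomials of exact degree `k` with positive leading coefficient and all coefficients in `[-H, H]`. -/
def PP (k H : ℕ) : Set ℤ[X] := {f | f.natDegree = k ∧ 0 < f.leadingCoeff ∧ ∀ i, |f.coeff i| ≤ H}

/-- `f` and `g` share no complex root. -/
def Co (f g : ℤ[X]) : Prop := ∀ z : ℂ, ¬ (aeval z f = 0 ∧ aeval z g = 0)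

/-- `p f + q g = 1`, `deg p < deg g`, `deg q < deg f`. -/
def IsPair (f g : ℤ[X]) (p q : ℚ[X]) : Prop :=
  p * f.map (Int.castRingHom ℚ) + q * g.map (Int.castRingHom ℚ) = 1 ∧ p.degree < g.degree ∧ q.degree < f.degree

/-- The Bezout denominator: the least positive integer `N` such that `N p` and `N q` have integer coefficients. -/
noncomputable def B (f g : ℤ[X]) : ℕ :=
  sInf {N : ℕ | 0 < N ∧ ∃ p q : ℚ[X], IsPair f g p q ∧ (∃ P : ℤ[X], P.map (Int.castRingHom ℚ) = C (N : ℚ) * p) ∧
    ∃ Q : ℤ[X], Q.map (Int.castRingHom ℚ) = C (N : ℚ) * q}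

/-- The absolute value of the resultant. -/
noncomputable def R (f g : ℤ[X]) : ℕ := (resultant f g).natAbs

/-- The coprime pairs. -/
def S (m n H : ℕ) : Set (ℤ[X] × ℤ[X]) := {x | x.1 ∈ PP m H ∧ x.2 ∈ PP n H ∧ Co x.1 x.2}

/-- The coprime pairs with `B = R`. -/
def E (m n H : ℕ) : Set (ℤ[X] × ℤ[X]) := {x | x ∈ S m n H ∧ B x.1 x.2 = R x.1 x.2}

/-- The proportion of the pairs with `B = R`. -/
noncomputable def ρ (m n H : ℕ) : ℝ := ((E m n H).ncard : ℝ) / (S m n H).ncard

/-- For coprime `f`, `g` of positive degrees the pair `(p, q)` exists and is unique; the sets of the pairs of polynomials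
are finite; and for all `m, n ≥ 2` the proportion tends to `36 / π⁴`, which is less than `1/2`. -/
theorem result :
    (∀ f g : ℤ[X], 0 < f.natDegree → 0 < g.natDegree → Co f g → ∃! pq : ℚ[X] × ℚ[X], IsPair f g pq.1 pq.2) ∧
    (∀ m n H : ℕ, (S m n H).Finite) ∧
    (∀ m n : ℕ, 2 ≤ m → 2 ≤ n → Tendsto (ρ m n) atTop (𝓝 (36 / Real.pi ^ 4))) ∧
    36 / Real.pi ^ 4 < 1 / 2 := by
  refine ⟨fun f g hf hg h => Pool.Agent.Q20.BZ.exists_unique_pair f g hf hg h, fun m n H => ?_, fun m n hm hn => ?_,
    Pool.Agent.Q20.BZ.euler.2⟩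
  · exact Pool.Agent.Q20.BZ.finite_pairs m n H
  · have h := Pool.Agent.Q20.BZ.main m n hm hn
    refine h.congr fun H => ?_
    unfold ρ
    have e : E m n H = {x : ℤ[X] × ℤ[X] | x.1 ∈ Pool.Agent.Q20.BZ.PP m H ∧ x.2 ∈ Pool.Agent.Q20.BZ.PP n H ∧
        Pool.Agent.Q20.BZ.Co x.1 x.2 ∧ Pool.Agent.Q20.BZ.bez x.1 x.2 = (resultant x.1 x.2).natAbs} := by
      ext x
      constructor
      · rintro ⟨⟨h1, h2, h3⟩, h4⟩
        refine ⟨h1, h2, h3, ?_⟩
        unfold B IsPair R at h4
        simp only [and_assoc] at h4
        exact h4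
      · rintro ⟨h1, h2, h3, h4⟩
        refine ⟨⟨h1, h2, h3⟩, ?_⟩
        unfold B IsPair R
        simp only [and_assoc]
        exact h4
    rw [e]
    rfl

end Pool.Agent.Results.MP_32694d_nt.BezoutEqualsResultant
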